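import Mathlib
import Pool.Graph.R_seed8.W340.RT.SVR2
import Pool.Graph.R_seed8.Helper256.KM.Mertens

/-! The number of the integers `t ≤ N` at which `k` linear forms are prime: an upper bound which is uniform in the
forms, with the loss of a power of `log log N`. -/

set_option autoImplicit false

namespace Pool.Agent.H48.AS

open Finset Filter Pool.Agent.W262.RK

/-- The reciprocals of the prime factors. -/
lemma sum_pf : ∃ C : ℝ, 0 ≤ C ∧ ∀ᶠ N : ℕ in atTop, ∀ M : ℕ, M ≠ 0 → M ≤ N ^ 20 →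
    ∑ p ∈ M.primeFactors, 1 / (p : ℝ) ≤ Real.log (Real.log (Real.log N)) + C := by
  obtain ⟨C, hC⟩ := Pool.Agent.Helper256.KM.mertens_inv
  refine ⟨|C| + 60, by positivity, ?_⟩
  have tN : Tendsto (fun N : ℕ => (N : ℝ)) atTop atTop := tendsto_natCast_atTop_atTop
  have tL : Tendsto (fun N : ℕ => Real.log (N : ℝ)) atTop atTop := Real.tendsto_log_atTop.comp tN
  filter_upwards [tL.eventually_ge_atTop 8] with N hN M hM0 hM
  have hL : 8 ≤ Real.log N := hN
  obtain ⟨y, hy⟩ : ∃ y : ℕ, y = ⌊Real.log N⌋₊ := ⟨_, rfl⟩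
  have hy1 : (y : ℝ) ≤ Real.log N := by rw [hy]; exact Nat.floor_le (by linarith)
  have hy2 : Real.log N < y + 1 := by rw [hy]; exact Nat.lt_floor_add_one _
  have hy3 : 3 ≤ y := by
    rw [hy]
    exact Nat.le_floor (by push_cast; linarith)
  -- split
  have h1 : ∑ p ∈ M.primeFactors, 1 / (p : ℝ) ≤
      ∑ p ∈ (Finset.Icc 1 y).filter Nat.Prime, (1 : ℝ) / p + ∑ p ∈ M.primeFactors.filter (fun p => y < p), 1 / (p : ℝ) := by
    rw [← sum_filter_add_sum_filter_not M.primeFactors (fun p => y < p), add_comm]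
    gcongr
    intro p hp
    rw [mem_filter, not_lt] at hp
    have h2 := Nat.prime_of_mem_primeFactors hp.1
    rw [mem_filter, mem_Icc]
    exact ⟨⟨h2.one_lt.le, hp.2⟩, h2⟩
  have h2 : ∑ p ∈ M.primeFactors.filter (fun p => y < p), 1 / (p : ℝ) ≤ 60 := by
    have h3 : ∀ p ∈ M.primeFactors.filter (fun p => y < p), 1 / (p : ℝ) ≤ 1 / Real.log N := by
      intro p hp
      rw [mem_filter] at hp
      have h4 : ((y + 1 : ℕ) : ℝ) ≤ p := by exact_mod_cast hp.2
      push_cast at h4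
      exact one_div_le_one_div_of_le (by linarith) (by linarith)
    refine (sum_le_sum h3).trans ?_
    rw [sum_const, nsmul_eq_mul]
    have h4 : (M.primeFactors.card : ℝ) * Real.log 2 ≤ 20 * Real.log N := by
      have h5 : 2 ^ M.primeFactors.card ≤ M := by
        calc 2 ^ M.primeFactors.card = ∏ _p ∈ M.primeFactors, 2 := by rw [prod_const]
          _ ≤ ∏ p ∈ M.primeFactors, p := prod_le_prod' fun p hp => (Nat.prime_of_mem_primeFactors hp).two_le
          _ ≤ M := Nat.le_of_dvd (Nat.pos_of_ne_zero hM0) (Nat.prod_primeFactors_dvd M)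
      have h6 : ((2 : ℝ)) ^ M.primeFactors.card ≤ (N : ℝ) ^ 20 := by exact_mod_cast h5.trans hM
      have h7 := Real.log_le_log (by positivity) h6
      rw [Real.log_pow, Real.log_pow] at h7
      exact_mod_cast h7
    have h5 : ((M.primeFactors.filter (fun p => y < p)).card : ℝ) ≤ M.primeFactors.card := by
      exact_mod_cast card_filter_le _ _
    have h6 := Real.log_two_gt_d9
    have h7 : (M.primeFactors.card : ℝ) ≤ 60 * Real.log N := by nlinarith
    rw [mul_one_div, div_le_iff₀ (by linarith)]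
    linarith
  have h3 := (abs_le.1 (hC y hy3)).2
  have h4 : Real.log (Real.log y) ≤ Real.log (Real.log (Real.log N)) := by
    have h5 : Real.log y ≤ Real.log (Real.log N) := Real.log_le_log (by positivity) hy1
    have h6 : 0 < Real.log y := Real.log_pos (by exact_mod_cast (by omega : 1 < y))
    exact Real.log_le_log h6 h5
  have h5 := le_abs_self C
  linarith

lemma prod_pf (k : ℕ) : ∃ C : ℝ, 0 < C ∧ ∀ᶠ N : ℕ in atTop, ∀ M : ℕ, M ≠ 0 → M ≤ N ^ 20 → ∀ y : ℕ,
    ∏ p ∈ M.primeFactors.filter (fun p => p ∈ PS (2 * k + 12) y), (p : ℝ) / ((p : ℝ) - k) ≤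
      C * Real.log (Real.log N) ^ k := by
  obtain ⟨C, hC, hs⟩ := sum_pf
  have hs2 : Summable (fun n : ℕ => 1 / (n : ℝ) ^ 2) := Real.summable_one_div_nat_pow.2 (by norm_num)
  set S : ℝ := ∑' n : ℕ, 1 / (n : ℝ) ^ 2 with hS
  refine ⟨Real.exp (k * C + 2 * k ^ 2 * S), Real.exp_pos _, ?_⟩
  have tN : Tendsto (fun N : ℕ => (N : ℝ)) atTop atTop := tendsto_natCast_atTop_atTop
  have tL : Tendsto (fun N : ℕ => Real.log (N : ℝ)) atTop atTop := Real.tendsto_log_atTop.comp tN
  filter_upwards [hs, tL.eventually_ge_atTop 8] with N hN hL M hM0 hM y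
  have h1 := hN M hM0 hM
  have hL2 : 0 < Real.log (Real.log N) := Real.log_pos (by linarith)
  have h2 : ∀ p ∈ M.primeFactors.filter (fun p => p ∈ PS (2 * k + 12) y), (p : ℝ) / ((p : ℝ) - k) ≤
      Real.exp (k * (1 / (p : ℝ)) + 2 * k ^ 2 * (1 / (p : ℝ) ^ 2)) := by
    intro p hp
    rw [mem_filter] at hp
    have h3 := hp.2
    unfold PS at h3
    rw [mem_filter, mem_Ioc] at h3
    have h4 : ((2 * k + 12 : ℕ) : ℝ) < p := by exact_mod_cast h3.1.1
    push_cast at h4
    have hk : (0 : ℝ) ≤ k := Nat.cast_nonneg k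
    have hp0 : (0 : ℝ) < p := by linarith
    have hpk : 0 < (p : ℝ) - k := by linarith
    refine le_trans ?_ (Real.add_one_le_exp _)
    rw [div_le_iff₀ hpk]
    have h5 : (k * (1 / (p : ℝ)) + 2 * k ^ 2 * (1 / (p : ℝ) ^ 2) + 1) * ((p : ℝ) - k) - p =
        k ^ 2 / p ^ 2 * (p - 2 * k) := by
      field_simp
      ring
    have h6 : 0 ≤ (k : ℝ) ^ 2 / p ^ 2 * (p - 2 * k) := by
      apply mul_nonneg (by positivity)
      linarith
    linarith
  have h3 : ∏ p ∈ M.primeFactors.filter (fun p => p ∈ PS (2 * k + 12) y), (p : ℝ) / ((p : ℝ) - k) ≤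
      ∏ p ∈ M.primeFactors.filter (fun p => p ∈ PS (2 * k + 12) y),
        Real.exp (k * (1 / (p : ℝ)) + 2 * k ^ 2 * (1 / (p : ℝ) ^ 2)) := by
    apply prod_le_prod _ h2
    intro p hp
    rw [mem_filter] at hp
    have h3 := hp.2
    unfold PS at h3
    rw [mem_filter, mem_Ioc] at h3
    have h4 : ((2 * k + 12 : ℕ) : ℝ) < p := by exact_mod_cast h3.1.1
    push_cast at h4
    have hk : (0 : ℝ) ≤ k := Nat.cast_nonneg k
    apply div_nonneg <;> linarith
  refine h3.trans ?_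
  rw [← Real.exp_sum, sum_add_distrib, ← mul_sum, ← mul_sum]
  have h4 : ∑ p ∈ M.primeFactors.filter (fun p => p ∈ PS (2 * k + 12) y), 1 / (p : ℝ) ≤
      Real.log (Real.log (Real.log N)) + C := by
    refine le_trans (sum_le_sum_of_subset_of_nonneg (filter_subset _ _) ?_) h1
    intro p _ _
    positivity
  have h5 : ∑ p ∈ M.primeFactors.filter (fun p => p ∈ PS (2 * k + 12) y), 1 / (p : ℝ) ^ 2 ≤ S :=
    hs2.sum_le_tsum _ (fun n _ => by positivity)
  have hk : (0 : ℝ) ≤ k := Nat.cast_nonneg k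
  have h6 : (k : ℝ) * ∑ p ∈ M.primeFactors.filter (fun p => p ∈ PS (2 * k + 12) y), 1 / (p : ℝ) +
      2 * k ^ 2 * ∑ p ∈ M.primeFactors.filter (fun p => p ∈ PS (2 * k + 12) y), 1 / (p : ℝ) ^ 2 ≤
      (k * C + 2 * k ^ 2 * S) + k * Real.log (Real.log (Real.log N)) := by
    have h7 := mul_le_mul_of_nonneg_left h4 hk
    have h8 := mul_le_mul_of_nonneg_left h5 (by positivity : (0 : ℝ) ≤ 2 * k ^ 2)
    linarith
  refine (Real.exp_le_exp.2 h6).trans ?_
  rw [Real.exp_add, mul_comm (k : ℝ) (Real.log (Real.log (Real.log N))), Real.exp_mul, Real.exp_log hL2,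
    Real.rpow_natCast]

/-- Upper bound for the number of the `t ≤ N` at which `k` linear forms with small leading coefficients are prime. -/
theorem forms (k : ℕ) : ∃ C : ℝ, 0 < C ∧ ∀ᶠ N : ℕ in atTop, ∀ α β : Fin k → ℤ, (∀ j, α j ≠ 0 ∧ |α j| ≤ 10) →
    ∀ M : ℕ, M ≠ 0 → M ≤ N ^ 20 → (∀ j l, j ≠ l → Res α β j l ∣ (M : ℤ)) →
    (((Icc 1 N).filter (fun t : ℕ => ∀ j, (α j * (t : ℤ) + β j).toNat.Prime)).card : ℝ) ≤
      C * N * Real.log (Real.log N) ^ k / Real.log N ^ k := by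
  classical
  obtain ⟨C, K, y0, hC, hK, hsv⟩ := Pool.Agent.W340.RT.SVR2.svr2 (Fin k) (2 * k + 12) (by simp)
  obtain ⟨C2, hC2, hprod⟩ := prod_pf k
  have tN : Tendsto (fun N : ℕ => (N : ℝ)) atTop atTop := tendsto_natCast_atTop_atTop
  have tL : Tendsto (fun N : ℕ => Real.log (N : ℝ)) atTop atTop := Real.tendsto_log_atTop.comp tN
  have hKr : (1 : ℝ) ≤ K := by exact_mod_cast hK
  obtain ⟨e, he⟩ : ∃ e : ℝ, e = 1 / (2 * K) := ⟨_, rfl⟩
  have he0 : 0 < e := by rw [he]; positivity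
  have heK : e * K = 1 / 2 := by rw [he]; field_simp
  have te : Tendsto (fun N : ℕ => (N : ℝ) ^ e) atTop atTop := (tendsto_rpow_atTop he0).comp tN
  have te2 : Tendsto (fun N : ℕ => (N : ℝ) ^ (e / 2)) atTop atTop :=
    (tendsto_rpow_atTop (by positivity)).comp tN
  have e1 : ∀ᶠ N : ℕ in atTop, (2 * (k + 1) : ℝ) * (N : ℝ) ^ (1 / 2 : ℝ) * Real.log N ^ k ≤ N := by
    have h := ((isLittleO_log_rpow_rpow_atTop ((k : ℕ) : ℝ)
      (by norm_num : (0 : ℝ) < 1 / 2)).comp_tendsto tN).bound (by positivity : (0 : ℝ) < 1 / (2 * (k + 1)))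
    filter_upwards [h, eventually_ge_atTop 1] with N hN hN1
    have hN1' : (1 : ℝ) ≤ N := by exact_mod_cast hN1
    have hl := Real.log_nonneg hN1'
    simp only [Function.comp_def, Real.rpow_natCast] at hN
    rw [Real.norm_of_nonneg (by positivity), Real.norm_of_nonneg (by positivity)] at hN
    have h2 : (N : ℝ) ^ (1 / 2 : ℝ) * (N : ℝ) ^ (1 / 2 : ℝ) = N := by
      rw [← Real.rpow_add (by linarith)]
      norm_num
    have h3 : 0 ≤ (N : ℝ) ^ (1 / 2 : ℝ) := by positivity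
    calc (2 * (k + 1) : ℝ) * (N : ℝ) ^ (1 / 2 : ℝ) * Real.log N ^ k
        ≤ (2 * (k + 1) : ℝ) * (N : ℝ) ^ (1 / 2 : ℝ) * (1 / (2 * (k + 1)) * (N : ℝ) ^ (1 / 2 : ℝ)) := by gcongr
      _ = (N : ℝ) ^ (1 / 2 : ℝ) * (N : ℝ) ^ (1 / 2 : ℝ) := by field_simp
      _ = N := h2
  refine ⟨C * (4 * K) ^ k * C2 + 1, by positivity, ?_⟩
  filter_upwards [te.eventually_ge_atTop (y0 + 2 * k + 14 : ℝ), te2.eventually_ge_atTop 2, e1, eventually_ge_atTop 3,
    hprod, tL.eventually_ge_atTop 8] with N h1 h2 h3 h4 hpr hL α β hα M hM0 hM hres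
  have hNr : (3 : ℝ) ≤ N := by exact_mod_cast h4
  have hlN : 0 < Real.log N := by linarith
  obtain ⟨y, hy⟩ : ∃ y : ℕ, y = ⌊(N : ℝ) ^ e⌋₊ := ⟨_, rfl⟩
  have hyle : (y : ℝ) ≤ (N : ℝ) ^ e := by rw [hy]; exact Nat.floor_le (by positivity)
  have hylt : (N : ℝ) ^ e < y + 1 := by rw [hy]; exact Nat.lt_floor_add_one _
  have hyr : (y0 : ℝ) + 2 * k + 13 < y + 1 := by linarith
  have hy9 : y0 + 2 * k + 13 ≤ y := by
    have : y0 + 2 * k + 13 < y + 1 := by exact_mod_cast hyr
    omega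
  have hsplit : (N : ℝ) ^ (e / 2) * (N : ℝ) ^ (e / 2) = (N : ℝ) ^ e := by
    rw [← Real.rpow_add (by linarith)]
    congr 1
    ring
  have hylow : (N : ℝ) ^ (e / 2) ≤ y := by nlinarith
  have hlogy : Real.log N / (4 * K) ≤ Real.log y := by
    have h5 := Real.log_le_log (by positivity) hylow
    rw [Real.log_rpow (by linarith)] at h5
    refine le_trans (le_of_eq ?_) h5
    rw [he]
    field_simp
    ring
  have hyK : y ^ K ≤ N := by
    have h5 : (y : ℝ) ^ K ≤ N := by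
      calc (y : ℝ) ^ K ≤ ((N : ℝ) ^ e) ^ K := pow_le_pow_left₀ (Nat.cast_nonneg _) hyle K
        _ = (N : ℝ) ^ (1 / 2 : ℝ) := by
            rw [← Real.rpow_natCast, ← Real.rpow_mul (by linarith), heK]
        _ ≤ (N : ℝ) ^ (1 : ℝ) := Real.rpow_le_rpow_of_exponent_le (by linarith) (by norm_num)
        _ = N := Real.rpow_one _
    exact_mod_cast h5
  have hyhalf : (y : ℝ) ≤ (N : ℝ) ^ (1 / 2 : ℝ) := by
    refine hyle.trans (Real.rpow_le_rpow_of_exponent_le (by linarith) ?_)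
    rw [he]
    apply one_div_le_one_div_of_le (by norm_num)
    linarith
  have key := hsv N y (by omega) (by omega) hyK α β 1 M 0 le_rfl
    (one_dvd _) hM0 (by rw [one_pow]; omega) (by
      intro p hp hpM
      unfold PS at hp
      rw [mem_filter, mem_Ioc] at hp
      obtain ⟨⟨hp8, -⟩, hpp⟩ := hp
      refine ⟨fun j h => ?_, fun j l hjl h => ?_⟩
      · have h5 := Int.le_of_dvd (abs_pos.2 (hα j).1) ((dvd_abs _ _).2 h)
        have h6 := (hα j).2
        have h7 : (10 : ℤ) < p := by exact_mod_cast (by omega : 10 < p)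
        omega
      · have h5 := h.trans (hres j l hjl)
        rw [Int.natCast_dvd_natCast] at h5
        exact hpM h5)
  obtain ⟨Pd, hPd⟩ : ∃ Pd : ℕ → Prop, Pd = (fun t : ℕ => t ≡ 0 [MOD 1] ∧
      ∀ p ∈ PS (2 * k + 12) y, ¬ p ∣ M → ∀ j, ¬ (p : ℤ) ∣ ff α β (t : ℤ) j) := ⟨_, rfl⟩
  obtain ⟨B, hB⟩ : ∃ B : Finset ℕ, B = (Icc 1 N).filter Pd := ⟨_, rfl⟩
  have key : (B.card : ℝ) ≤ C * (N / (1 : ℕ)) * (∏ p ∈ M.primeFactors.filter (fun p => p ∈ PS (2 * k + 12) y),
      (p : ℝ) / ((p : ℝ) - Fintype.card (Fin k))) / (Real.log y) ^ (Fintype.card (Fin k)) := by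
    rw [hB, hPd]
    convert key
  -- the small values
  set E : Fin k → Finset ℕ := fun j => (Icc 1 N).filter (fun t : ℕ => 0 ≤ α j * (t : ℤ) + β j ∧ α j * (t : ℤ) + β j ≤ y)
    with hE
  have hEc : ∀ j, (E j).card ≤ y + 1 := by
    intro j
    have : (E j).card ≤ (range (y + 1)).card := by
      apply card_le_card_of_injOn (fun t : ℕ => (α j * (t : ℤ) + β j).toNat)
      · intro t ht
        rw [hE] at ht
        simp only [mem_coe, mem_filter] at ht
        rw [mem_coe, mem_range]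
        obtain ⟨-, a1, a2⟩ := ht
        show (α j * (t : ℤ) + β j).toNat < y + 1
        omega
      · intro t ht t' ht' h
        rw [hE] at ht ht'
        simp only [mem_coe, mem_filter] at ht ht'
        simp only at h
        have h5 : α j * (t : ℤ) + β j = α j * (t' : ℤ) + β j := by
          have a1 := ht.2.1
          have a2 := ht'.2.1
          omega
        have h6 : α j * (t : ℤ) = α j * (t' : ℤ) := by linarith
        exact_mod_cast mul_left_cancel₀ (hα j).1 h6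
    rwa [card_range] at this
  have hsub : (Icc 1 N).filter (fun t : ℕ => ∀ j, (α j * (t : ℤ) + β j).toNat.Prime) ⊆ B ∪ univ.biUnion E := by
    intro t ht
    rw [mem_filter] at ht
    rw [mem_union, mem_biUnion]
    by_cases hs : ∃ j, α j * (t : ℤ) + β j ≤ y
    · right
      obtain ⟨j, hj⟩ := hs
      refine ⟨j, mem_univ _, mem_filter.2 ⟨ht.1, ?_, hj⟩⟩
      by_contra hcon
      have h5 := ht.2 j
      rw [Int.toNat_of_nonpos (by omega)] at h5
      exact Nat.not_prime_zero h5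
    · left
      push Not at hs
      rw [hB, mem_filter, hPd]
      refine ⟨ht.1, Nat.modEq_one, ?_⟩
      intro p hp _ j hd
      unfold PS at hp
      rw [mem_filter, mem_Ioc] at hp
      have h5 := ht.2 j
      have h6 := hs j
      have h7 : ((α j * (t : ℤ) + β j).toNat : ℤ) = α j * (t : ℤ) + β j := Int.toNat_of_nonneg (by omega)
      have h8 : ff α β (t : ℤ) j = ((α j * (t : ℤ) + β j).toNat : ℤ) := by rw [h7]; rfl
      rw [h8, Int.natCast_dvd_natCast, Nat.prime_dvd_prime_iff_eq hp.2 h5] at hd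
      have h9 : (p : ℤ) ≤ y := by exact_mod_cast hp.1.2
      rw [hd, h7] at h9
      omega
  have hcard : (((Icc 1 N).filter (fun t : ℕ => ∀ j, (α j * (t : ℤ) + β j).toNat.Prime)).card : ℝ) ≤
      B.card + k * (y + 1) := by
    have a1 := card_le_card hsub
    have a2 := card_union_le B (univ.biUnion E)
    have a3 : (univ.biUnion E).card ≤ k * (y + 1) := by
      refine card_biUnion_le.trans ?_
      refine (sum_le_card_nsmul _ _ _ fun j _ => hEc j).trans ?_
      simp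
    have a4 := a1.trans (a2.trans (Nat.add_le_add_left a3 _))
    exact_mod_cast a4
  have hP := hpr M hM0 hM y
  have hB1 : (B.card : ℝ) ≤ C * (4 * K) ^ k * C2 * N * Real.log (Real.log N) ^ k / Real.log N ^ k := by
    have hky : (Real.log N / (4 * K)) ^ k ≤ Real.log y ^ k := pow_le_pow_left₀ (by positivity) hlogy _
    have key2 : (B.card : ℝ) ≤ C * N * (C2 * Real.log (Real.log N) ^ k) / (Real.log N / (4 * K)) ^ k := by
      refine key.trans ?_
      rw [Fintype.card_fin, Nat.cast_one, div_one]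
      have hC0 : 0 ≤ C * (N : ℝ) := by positivity
      have hll : 0 ≤ Real.log (Real.log N) := Real.log_nonneg (by linarith)
      gcongr
    refine key2.trans (le_of_eq ?_)
    rw [div_pow]
    field_simp
  have hB2 : (k : ℝ) * (y + 1) ≤ 1 * N * Real.log (Real.log N) ^ k / Real.log N ^ k := by
    have hll : 1 ≤ Real.log (Real.log N) := by
      rw [Real.le_log_iff_exp_le hlN]
      have := Real.exp_one_lt_d9
      linarith
    have h5 : (1 : ℝ) ≤ Real.log (Real.log N) ^ k := one_le_pow₀ hll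
    have h6 : 0 < Real.log N ^ k := by positivity
    rw [le_div_iff₀ h6]
    have h7 : (1 : ℝ) ≤ (N : ℝ) ^ (1 / 2 : ℝ) := Real.one_le_rpow (by linarith) (by norm_num)
    have h8 : (k : ℝ) * (y + 1) ≤ 2 * (k + 1) * (N : ℝ) ^ (1 / 2 : ℝ) := by
      have hk : (0 : ℝ) ≤ k := Nat.cast_nonneg k
      nlinarith
    calc (k : ℝ) * (y + 1) * Real.log N ^ k ≤ 2 * (k + 1) * (N : ℝ) ^ (1 / 2 : ℝ) * Real.log N ^ k := by gcongr
      _ ≤ N := h3
      _ = 1 * N * 1 := by ring
      _ ≤ 1 * N * Real.log (Real.log N) ^ k := by gcongr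
  calc (((Icc 1 N).filter (fun t : ℕ => ∀ j, (α j * (t : ℤ) + β j).toNat.Prime)).card : ℝ)
      ≤ B.card + k * (y + 1) := hcard
    _ ≤ C * (4 * K) ^ k * C2 * N * Real.log (Real.log N) ^ k / Real.log N ^ k +
        1 * N * Real.log (Real.log N) ^ k / Real.log N ^ k := add_le_add hB1 hB2
    _ = _ := by ring

end Pool.Agent.H48.AS
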