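import Mathlib
import Pool.Graph.R_pool_sql_team_seeded_b3bd081e.H560R3.GB.Fin
import Pool.Graph.R_seed8.Y886.PPC
import Pool.Agent.H48.AS.Forms

/-! Sums of two primes in arbitrary sets, and the second moment of the number of `r + 3 s`. -/

set_option autoImplicit false

namespace Pool.Agent.H48.AS

open Finset Filter
open Pool.Agent.H560R3.GB (g sing)
open Pool.Agent.W262.RK (Res)

/-- pairs of primes `(r, s)`, `s ≥ 5`, with `r + s - 1 ∈ B` -/
def EE (B : Finset ℕ) (N : ℕ) : Finset (ℕ × ℕ) := ((range (N + 1)) ×ˢ (range (N + 1))).filter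
  (fun z => z.1.Prime ∧ z.2.Prime ∧ 5 ≤ z.2 ∧ z.1 + z.2 - 1 ∈ B)

lemma card_pairs (q N : ℕ) (hq : q + 1 ≤ N) : (g (q + 1) : ℝ) - 5 ≤
    ((((range (N + 1)) ×ˢ (range (N + 1))).filter
      (fun z : ℕ × ℕ => z.1.Prime ∧ z.2.Prime ∧ 5 ≤ z.2 ∧ z.1 + z.2 - 1 = q)).card : ℝ) := by
  classical
  have h1 : g (q + 1) ≤ (((range (N + 1)) ×ˢ (range (N + 1))).filter
      (fun z : ℕ × ℕ => z.1.Prime ∧ z.2.Prime ∧ 5 ≤ z.2 ∧ z.1 + z.2 - 1 = q)).card + 5 := by
    unfold g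
    have h2 : (antidiagonal (q + 1)).filter (fun z : ℕ × ℕ => z.1.Prime ∧ z.2.Prime) ⊆
        ((range (N + 1)) ×ˢ (range (N + 1))).filter
          (fun z : ℕ × ℕ => z.1.Prime ∧ z.2.Prime ∧ 5 ≤ z.2 ∧ z.1 + z.2 - 1 = q) ∪
        (range 5).image (fun s => (q + 1 - s, s)) := by
      rintro ⟨a, b⟩ h
      rw [mem_filter, HasAntidiagonal.mem_antidiagonal] at h
      rw [mem_union, mem_filter, mem_product, mem_range, mem_range, mem_image]
      simp only at h ⊢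
      by_cases hb : 5 ≤ b
      · left
        refine ⟨⟨by omega, by omega⟩, h.2.1, h.2.2, hb, by omega⟩
      · right
        refine ⟨b, mem_range.2 (by omega), ?_⟩
        rw [Prod.mk.injEq]
        omega
    refine (card_le_card h2).trans ((card_union_le _ _).trans ?_)
    have h3 : ((range 5).image (fun s => (q + 1 - s, s))).card ≤ 5 := by
      refine card_image_le.trans ?_
      simp
    omega
  have h2 : (g (q + 1) : ℝ) ≤ ((((range (N + 1)) ×ˢ (range (N + 1))).filter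
      (fun z : ℕ × ℕ => z.1.Prime ∧ z.2.Prime ∧ 5 ≤ z.2 ∧ z.1 + z.2 - 1 = q)).card : ℝ) + 5 := by
    exact_mod_cast h1
  linarith

theorem gold_sets (A : ℕ) : ∀ᶠ x : ℕ in atTop, ∀ B : Finset ℕ, (∀ q ∈ B, Odd q ∧ x < q ∧ q ≤ 2 * x) →
    (x : ℝ) / Real.log x ^ A ≤ B.card →
    (B.card : ℝ) * x / (16 * Real.log x ^ 2) ≤ ((EE B (2 * x + 1)).card : ℝ) := by
  classical
  obtain ⟨N₀, hmain⟩ := Pool.Agent.H560R3.GB.main 1 (A + 3) 1 le_rfl (1 / 2) (by norm_num)
  have tN : Tendsto (fun N : ℕ => (N : ℝ)) atTop atTop := tendsto_natCast_atTop_atTop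
  have tL : Tendsto (fun N : ℕ => Real.log (N : ℝ)) atTop atTop := Real.tendsto_log_atTop.comp tN
  have e1 : ∀ᶠ N : ℕ in atTop, 640 * Real.log N ^ 2 ≤ (N : ℝ) := by
    have h := ((isLittleO_log_rpow_rpow_atTop ((2 : ℕ) : ℝ)
      (by norm_num : (0 : ℝ) < 1)).comp_tendsto tN).bound (by norm_num : (0 : ℝ) < 1 / 640)
    filter_upwards [h, eventually_ge_atTop 1] with N hN hN1
    have hN1' : (1 : ℝ) ≤ N := by exact_mod_cast hN1
    have hl := Real.log_nonneg hN1'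
    simp only [Function.comp_def, Real.rpow_natCast, Real.rpow_one] at hN
    rw [Real.norm_of_nonneg (by positivity), Real.norm_of_nonneg (by positivity)] at hN
    linarith
  filter_upwards [eventually_ge_atTop (N₀ + 3), tL.eventually_ge_atTop 8, e1] with x hx hL he B hB hcard
  have hx3 : (3 : ℝ) ≤ x := by exact_mod_cast (by omega : 3 ≤ x)
  obtain ⟨N, hN⟩ : ∃ N, N = 2 * x + 1 := ⟨_, rfl⟩
  rw [← hN]
  have hNr : (N : ℝ) = 2 * x + 1 := by rw [hN]; push_cast; ring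
  have hLN : Real.log x ≤ Real.log N := Real.log_le_log (by linarith) (by rw [hNr]; linarith)
  have hLN2 : Real.log N ≤ 2 * Real.log x := by
    have h1 : Real.log N ≤ Real.log ((x : ℝ) ^ 2) := Real.log_le_log (by rw [hNr]; linarith) (by rw [hNr]; nlinarith)
    rwa [Real.log_pow] at h1
  set b : ℕ := B.card with hb
  set e := B.orderEmbOfFin hb.symm with hedef
  set s : ℕ → ℕ := fun m => if h : m - 1 < b then e ⟨m - 1, h⟩ + 1 else 2 with hs
  have hsv : ∀ m ∈ Icc 1 b, ∃ q ∈ B, s m = q + 1 := by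
    intro m hm
    rw [mem_Icc] at hm
    have h1 : m - 1 < b := by omega
    refine ⟨e ⟨m - 1, h1⟩, B.orderEmbOfFin_mem hb.symm _, ?_⟩
    simp only [hs]
    rw [dif_pos h1]
  have hsinj : ∀ m ∈ Icc 1 b, ∀ m' ∈ Icc 1 b, s m = s m' → m = m' := by
    intro m hm m' hm' h
    rw [mem_Icc] at hm hm'
    have h1 : m - 1 < b := by omega
    have h2 : m' - 1 < b := by omega
    simp only [hs] at h
    rw [dif_pos h1, dif_pos h2] at h
    have h3 : e ⟨m - 1, h1⟩ = e ⟨m' - 1, h2⟩ := by omega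
    have h4 := e.injective h3
    have h5 : m - 1 = m' - 1 := congrArg Fin.val h4
    omega
  have hen : (Pool.Agent.H373R2.T7.energy 1 b (fun m => (s m : ℤ)) : ℝ) ≤ b := by
    have : Pool.Agent.H373R2.T7.energy 1 b (fun m => (s m : ℤ)) ≤ (Icc 1 b).card := by
      unfold Pool.Agent.H373R2.T7.energy
      apply card_le_card_of_injOn (fun q => q.1 0)
      · intro q hq
        rw [mem_coe, mem_filter, mem_product] at hq
        exact (Fintype.mem_piFinset.1 hq.1.1) 0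
      · intro a ha c hc hac
        rw [mem_coe, mem_filter, mem_product] at ha hc
        have e1 := ha.2
        have e2 := hc.2
        simp only [Fin.sum_univ_one] at e1 e2
        simp only at hac
        have e3 : a.1 = c.1 := by
          funext i
          rw [Subsingleton.elim i 0]
          exact hac
        have e4 : a.2 = c.2 := by
          funext i
          rw [Subsingleton.elim i 0]
          have e5 : s (a.2 0) = s (c.2 0) := by
            have : (s (a.2 0) : ℤ) = s (c.2 0) := by rw [← e1, ← e2, hac]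
            exact_mod_cast this
          exact hsinj _ ((Fintype.mem_piFinset.1 ha.1.2) 0) _ ((Fintype.mem_piFinset.1 hc.1.2) 0) e5
        exact Prod.ext e3 e4
    rw [Nat.card_Icc, Nat.add_sub_cancel] at this
    exact_mod_cast this
  have hlx0 : 0 < Real.log (x : ℝ) := by linarith
  have hNb : (N : ℝ) ≤ Real.log N ^ (A + 3) * b := by
    have h1 : (x : ℝ) ≤ b * Real.log x ^ A := by
      rwa [div_le_iff₀ (by positivity)] at hcard
    have h2 : (b : ℝ) * Real.log x ^ A ≤ b * Real.log N ^ A := by gcongr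
    have h3 : (8 : ℝ) ≤ Real.log N ^ 3 := by
      have : (8 : ℝ) ≤ Real.log N := by linarith
      calc (8 : ℝ) ≤ 8 ^ 3 := by norm_num
        _ ≤ Real.log N ^ 3 := pow_le_pow_left₀ (by norm_num) this 3
    have h4 : (0 : ℝ) ≤ b * Real.log N ^ A := by
      have : 0 ≤ Real.log (N : ℝ) := by linarith
      positivity
    have h5 : (N : ℝ) ≤ 3 * x := by rw [hNr]; linarith
    calc (N : ℝ) ≤ 3 * x := h5
      _ ≤ 3 * (b * Real.log N ^ A) := by linarith
      _ ≤ Real.log N ^ 3 * (b * Real.log N ^ A) := mul_le_mul_of_nonneg_right (by linarith) h4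
      _ = Real.log N ^ (A + 3) * b := by ring
  obtain ⟨S, hS1, hS2⟩ := hmain N (by omega) b s
    (by
      intro m hm
      obtain ⟨q, hq, hqs⟩ := hsv m hm
      obtain ⟨h1, h2, h3⟩ := hB q hq
      rw [hqs]
      exact ⟨h1.add_one, by omega, by omega⟩)
    (by
      have hN0 : (0 : ℝ) ≤ N := Nat.cast_nonneg N
      have hb0 : (0 : ℝ) ≤ b := Nat.cast_nonneg b
      calc (Pool.Agent.H373R2.T7.energy 1 b (fun m => (s m : ℤ)) : ℝ) * N ≤ b * N :=
            mul_le_mul_of_nonneg_right hen hN0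
        _ ≤ b * (Real.log N ^ (A + 3) * b) := mul_le_mul_of_nonneg_left hNb hb0
        _ = Real.log N ^ (A + 3) * (b : ℝ) ^ (2 * 1) := by ring)
  -- the good elements
  have hgood : ∀ m ∈ Icc 1 b, m ∉ S → (x : ℝ) / (8 * Real.log x ^ 2) ≤ g (s m) := by
    intro m hm hmS
    obtain ⟨q, hq, hqs⟩ := hsv m hm
    obtain ⟨h1, h2, h3⟩ := hB q hq
    have h4 := (abs_le.1 (hS2 m hm hmS)).1
    have h5 := Pool.Agent.Y886.PP.sing_ge (s m)
    have h6 : (x : ℝ) ≤ s m := by exact_mod_cast (by rw [hqs]; omega : x ≤ s m)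
    have h7 : (s m : ℝ) ≤ N := by exact_mod_cast (by rw [hqs]; omega : s m ≤ N)
    have h8 : Real.log (s m) ≤ 2 * Real.log x := (Real.log_le_log (by linarith) h7).trans hLN2
    have h9 : 0 < Real.log (s m) := lt_of_lt_of_le hlx0 (Real.log_le_log (by linarith) h6)
    have h10 : (x : ℝ) / (4 * Real.log x ^ 2) ≤ s m / Real.log (s m) ^ 2 := by
      rw [div_le_div_iff₀ (by positivity) (by positivity)]
      have h11 : Real.log (s m) ^ 2 ≤ 4 * Real.log x ^ 2 := by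
        have := pow_le_pow_left₀ h9.le h8 2
        linarith
      calc (x : ℝ) * Real.log (s m) ^ 2 ≤ s m * (4 * Real.log x ^ 2) := by gcongr
        _ = _ := rfl
    have h11 : (x : ℝ) / (4 * Real.log x ^ 2) ≤ sing (s m) * (s m / Real.log (s m) ^ 2) := by
      have : 0 ≤ (s m : ℝ) / Real.log (s m) ^ 2 := by positivity
      nlinarith
    have h12 : (x : ℝ) / (8 * Real.log x ^ 2) = 1 / 2 * (x / (4 * Real.log x ^ 2)) := by
      field_simp
      ring
    rw [h12]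
    linarith
  set P : ℕ → Finset (ℕ × ℕ) := fun m => ((range (N + 1)) ×ˢ (range (N + 1))).filter
      (fun z : ℕ × ℕ => z.1.Prime ∧ z.2.Prime ∧ 5 ≤ z.2 ∧ z.1 + z.2 - 1 = s m - 1) with hP
  have hPc : ∀ m ∈ Icc 1 b \ S, (x : ℝ) / (10 * Real.log x ^ 2) ≤ ((P m).card : ℝ) := by
    intro m hm
    rw [Finset.mem_sdiff] at hm
    obtain ⟨q, hq, hqs⟩ := hsv m hm.1
    obtain ⟨h1, h2, h3⟩ := hB q hq
    have h4 := card_pairs q N (by omega)
    have h5 := hgood m hm.1 hm.2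
    have e : s m - 1 = q := by omega
    simp only [hP]
    rw [e]
    rw [hqs] at h5
    refine le_trans ?_ h4
    have h6 : (5 : ℝ) ≤ x / (128 * Real.log x ^ 2) := by
      rw [le_div_iff₀ (by positivity)]
      linarith
    have h7 : (x : ℝ) / (10 * Real.log x ^ 2) + x / (128 * Real.log x ^ 2) ≤ x / (8 * Real.log x ^ 2) := by
      have h8 : (0 : ℝ) < Real.log x ^ 2 := by positivity
      have h9 : (x : ℝ) / (10 * Real.log x ^ 2) + x / (128 * Real.log x ^ 2) = (69 / 640) * (x / Real.log x ^ 2) := by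
        field_simp
        ring
      have h10 : (x : ℝ) / (8 * Real.log x ^ 2) = (1 / 8) * (x / Real.log x ^ 2) := by
        field_simp
      rw [h9, h10]
      have : 0 ≤ (x : ℝ) / Real.log x ^ 2 := by positivity
      nlinarith
    linarith
  have hsub : (Icc 1 b \ S).biUnion P ⊆ EE B N := by
    intro z hz
    rw [mem_biUnion] at hz
    obtain ⟨m, hm, hz⟩ := hz
    rw [Finset.mem_sdiff] at hm
    obtain ⟨q, hq, hqs⟩ := hsv m hm.1
    simp only [hP] at hz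
    rw [mem_filter] at hz
    unfold EE
    rw [mem_filter]
    refine ⟨hz.1, hz.2.1, hz.2.2.1, hz.2.2.2.1, ?_⟩
    rw [hz.2.2.2.2, hqs]
    exact hq
  have hdis : ((Icc 1 b \ S : Finset ℕ) : Set ℕ).PairwiseDisjoint P := by
    intro m hm m' hm' hne
    rw [mem_coe, Finset.mem_sdiff] at hm hm'
    rw [Function.onFun, Finset.disjoint_left]
    intro z hz hz'
    simp only [hP] at hz hz'
    rw [mem_filter] at hz hz'
    apply hne
    apply hsinj m hm.1 m' hm'.1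
    obtain ⟨q, hq, hqs⟩ := hsv m hm.1
    obtain ⟨q', hq', hqs'⟩ := hsv m' hm'.1
    have h1 := hz.2.2.2.2
    have h2 := hz'.2.2.2.2
    omega
  have hcardE : ∑ m ∈ Icc 1 b \ S, ((P m).card : ℝ) ≤ ((EE B N).card : ℝ) := by
    have h1 := card_le_card hsub
    rw [card_biUnion hdis] at h1
    exact_mod_cast h1
  have hbs : (7 / 8 : ℝ) * b ≤ ((Icc 1 b \ S).card : ℝ) := by
    have h1 : (Icc 1 b).card ≤ (Icc 1 b \ S).card + S.card := by
      have := Finset.card_le_card_sdiff_add_card (s := Icc 1 b) (t := S)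
      omega
    rw [Nat.card_Icc, Nat.add_sub_cancel] at h1
    have h2 : (b : ℝ) ≤ ((Icc 1 b \ S).card : ℝ) + S.card := by exact_mod_cast h1
    have h3 : (S.card : ℝ) ≤ (1 / 8) * b := by
      refine hS1.trans ?_
      rw [pow_one, div_le_iff₀ (by linarith)]
      have : (0 : ℝ) ≤ b := Nat.cast_nonneg b
      nlinarith
    linarith
  refine le_trans ?_ hcardE
  refine le_trans ?_ (sum_le_sum hPc)
  rw [sum_const, nsmul_eq_mul]
  have h1 : 0 ≤ (x : ℝ) / (10 * Real.log x ^ 2) := by positivity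
  refine le_trans ?_ (mul_le_mul_of_nonneg_right hbs h1)
  have h2 : (b : ℝ) * x / (16 * Real.log x ^ 2) = (1 / 16) * (b * (x / Real.log x ^ 2)) := by
    field_simp
  have h3 : (7 / 8 : ℝ) * b * (x / (10 * Real.log x ^ 2)) = (7 / 80) * (b * (x / Real.log x ^ 2)) := by
    field_simp
    ring
  rw [h2, h3]
  have : 0 ≤ (b : ℝ) * (x / Real.log x ^ 2) := by positivity
  nlinarith

/-- the pairs with the sum `n` -/
def fibn (E : Finset (ℕ × ℕ)) (n : ℕ) : Finset (ℕ × ℕ) := E.filter (fun z => z.1 + 3 * z.2 = n)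

/-- the pairs of pairs with the same sum -/
def WW (E : Finset (ℕ × ℕ)) : Finset ((ℕ × ℕ) × (ℕ × ℕ)) :=
  (E ×ˢ E).filter (fun w => w.1.1 + 3 * w.1.2 = w.2.1 + 3 * w.2.2)

lemma sum_sq_le (E : Finset (ℕ × ℕ)) (I : Finset ℕ) :
    ∑ n ∈ I, (fibn E n).card ^ 2 ≤ (WW E).card := by
  classical
  have h1 : ∑ n ∈ I, (fibn E n).card ^ 2 = (I.biUnion (fun n => fibn E n ×ˢ fibn E n)).card := by
    rw [card_biUnion]
    · refine sum_congr rfl fun n _ => ?_
      rw [card_product, sq]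
    · intro n _ m _ hnm
      rw [Function.onFun, Finset.disjoint_left]
      rintro ⟨z, z'⟩ hz hz'
      rw [mem_product] at hz hz'
      apply hnm
      have h2 := (mem_filter.1 hz.1).2
      have h3 := (mem_filter.1 hz'.1).2
      simp only at h2 h3
      rw [← h2, h3]
  rw [h1]
  apply card_le_card
  rintro ⟨z, z'⟩ hz
  rw [mem_biUnion] at hz
  obtain ⟨n, -, hz⟩ := hz
  rw [mem_product] at hz
  have h2 := mem_filter.1 hz.1
  have h3 := mem_filter.1 hz.2
  simp only at h2 h3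
  unfold WW
  rw [mem_filter, mem_product]
  exact ⟨⟨h2.1, h3.1⟩, by simp only; rw [h2.2, h3.2]⟩

/-- the pairs of pairs with the same sum and given elements of `B` -/
def Wqq (E : Finset (ℕ × ℕ)) (q q' : ℕ) : Finset ((ℕ × ℕ) × (ℕ × ℕ)) :=
  (WW E).filter (fun w => w.1.1 + w.1.2 - 1 = q ∧ w.2.1 + w.2.2 - 1 = q')

lemma WW_le (B : Finset ℕ) (N : ℕ) : (WW (EE B N)).card ≤ ∑ q ∈ B, ∑ q' ∈ B, (Wqq (EE B N) q q').card := by
  classical
  rw [← sum_product' B B (fun q q' => (Wqq (EE B N) q q').card)]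
  rw [card_eq_sum_card_fiberwise (f := fun w => (w.1.1 + w.1.2 - 1, w.2.1 + w.2.2 - 1)) (t := B ×ˢ B)]
  · refine sum_le_sum fun y _ => card_le_card ?_
    intro w hw
    rw [mem_filter] at hw
    unfold Wqq
    rw [mem_filter]
    refine ⟨hw.1, ?_, ?_⟩
    · exact congrArg Prod.fst hw.2
    · exact congrArg Prod.snd hw.2
  · intro w hw
    rw [mem_coe] at hw
    unfold WW at hw
    rw [mem_filter, mem_product] at hw
    have h1 := (mem_filter.1 hw.1.1).2.2.2.2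
    have h2 := (mem_filter.1 hw.1.2).2.2.2.2
    rw [mem_coe, mem_product]
    exact ⟨h1, h2⟩

lemma Wqq_mem {B : Finset ℕ} {N q q' : ℕ} {w : (ℕ × ℕ) × (ℕ × ℕ)} (hw : w ∈ Wqq (EE B N) q q') :
    w.1.1.Prime ∧ w.1.2.Prime ∧ w.2.1.Prime ∧ w.2.2.Prime ∧ w.1.2 ≤ N ∧ w.1.1 + w.1.2 = q + 1 ∧
      w.2.1 + w.2.2 = q' + 1 ∧ w.1.1 + 3 * w.1.2 = w.2.1 + 3 * w.2.2 := by
  unfold Wqq WW EE at hw
  rw [mem_filter, mem_filter, mem_product, mem_filter, mem_filter, mem_product, mem_range, mem_range] at hw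
  obtain ⟨⟨⟨⟨⟨h1, h2⟩, h3, h4, h5, h6⟩, ⟨-, h7, h8, h9, h10⟩⟩, h11⟩, h12, h13⟩ := hw
  have := h3.two_le
  have := h4.two_le
  have := h7.two_le
  have := h8.two_le
  exact ⟨h3, h4, h7, h8, by omega, by omega, by omega, h11⟩

lemma Wqq_triv (B : Finset ℕ) (N q q' : ℕ) : (Wqq (EE B N) q q').card ≤ N := by
  have : (Wqq (EE B N) q q').card ≤ (Icc 1 N).card := by
    apply card_le_card_of_injOn (fun w => w.1.2)
    · intro w hw
      obtain ⟨h1, h2, h3, h4, h5, h6, h7, h8⟩ := Wqq_mem (mem_coe.1 hw)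
      rw [mem_coe, mem_Icc]
      exact ⟨h2.one_lt.le, h5⟩
    · intro w hw v hv h
      obtain ⟨h1, h2, h3, h4, h5, h6, h7, h8⟩ := Wqq_mem (mem_coe.1 hw)
      obtain ⟨g1, g2, g3, g4, g5, g6, g7, g8⟩ := Wqq_mem (mem_coe.1 hv)
      have e2 : w.1.2 = v.1.2 := h
      have e1 : w.1.1 = v.1.1 := by omega
      have e4 : w.2.2 = v.2.2 := by omega
      have e3 : w.2.1 = v.2.1 := by omega
      exact Prod.ext (Prod.ext e1 e2) (Prod.ext e3 e4)
  rwa [Nat.card_Icc, Nat.add_sub_cancel] at this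

lemma second : ∃ C : ℝ, 0 < C ∧ ∀ᶠ x : ℕ in atTop, ∀ B : Finset ℕ, (∀ q ∈ B, Odd q ∧ x < q ∧ q ≤ 2 * x) →
    Real.log x ^ 4 ≤ B.card →
    ∑ n ∈ Icc 1 (7 * x), ((fibn (EE B (2 * x + 1)) n).card : ℝ) ^ 2 ≤
      C * (B.card : ℝ) ^ 2 * x * Real.log (Real.log x) ^ 4 / Real.log x ^ 4 := by
  classical
  obtain ⟨C, hC, hf⟩ := forms 4
  have tN : Tendsto (fun N : ℕ => (N : ℝ)) atTop atTop := tendsto_natCast_atTop_atTop
  have tL : Tendsto (fun N : ℕ => Real.log (N : ℝ)) atTop atTop := Real.tendsto_log_atTop.comp tN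
  have htend : Tendsto (fun x : ℕ => 2 * x + 1) atTop atTop :=
    tendsto_atTop_mono (fun x => by omega : ∀ x : ℕ, x ≤ 2 * x + 1) tendsto_id
  refine ⟨48 * C + 3, by positivity, ?_⟩
  filter_upwards [htend.eventually hf, tL.eventually_ge_atTop 8, eventually_ge_atTop 4] with x hx hL hx4 B hB hcard
  obtain ⟨N, hN⟩ : ∃ N, N = 2 * x + 1 := ⟨_, rfl⟩
  rw [← hN] at hx ⊢
  have hx3 : (4 : ℝ) ≤ x := by exact_mod_cast hx4
  have hNr : (N : ℝ) = 2 * x + 1 := by rw [hN]; push_cast; ring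
  have hLN : Real.log x ≤ Real.log N := Real.log_le_log (by linarith) (by rw [hNr]; linarith)
  have hLN2 : Real.log N ≤ 2 * Real.log x := by
    have h1 : Real.log N ≤ Real.log ((x : ℝ) ^ 2) := Real.log_le_log (by rw [hNr]; linarith) (by rw [hNr]; nlinarith)
    rwa [Real.log_pow] at h1
  have hlx0 : 0 < Real.log (x : ℝ) := by linarith
  have hll1 : 1 ≤ Real.log (Real.log x) := by
    rw [Real.le_log_iff_exp_le hlx0]
    have := Real.exp_one_lt_d9
    linarith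
  have hllN : Real.log (Real.log N) ≤ 2 * Real.log (Real.log x) := by
    have h1 : Real.log (Real.log N) ≤ Real.log (Real.log x ^ 2) :=
      Real.log_le_log (by linarith) (by nlinarith)
    rwa [Real.log_pow] at h1
  have hllN0 : 0 ≤ Real.log (Real.log N) := Real.log_nonneg (by linarith)
  obtain ⟨D, hD⟩ : ∃ D : ℝ, D = C * N * Real.log (Real.log N) ^ 4 / Real.log N ^ 4 := ⟨_, rfl⟩
  have hD0 : 0 ≤ D := by
    rw [hD]
    have : 0 ≤ Real.log (N : ℝ) := by linarith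
    positivity
  have hoff : ∀ q ∈ B, ∀ q' ∈ B, q ≠ q' → ((Wqq (EE B N) q q').card : ℝ) ≤ D := by
    intro q hq q' hq' hne
    obtain ⟨⟨u, hu⟩, h2, h3⟩ := hB q hq
    obtain ⟨⟨u', hu'⟩, h2', h3'⟩ := hB q' hq'
    obtain ⟨h, hh⟩ : ∃ h : ℤ, h = (u : ℤ) - u' := ⟨_, rfl⟩
    have hh0 : h ≠ 0 := by omega
    obtain ⟨M, hM⟩ : ∃ M : ℕ, M = (3 * h * ((q : ℤ) + 1) * ((q' : ℤ) + 1) * ((q : ℤ) + 1 - 3 * h) *
      ((q : ℤ) + 1 + h)).natAbs := ⟨_, rfl⟩
    have hx' := hx ![1, 1, -1, -1] ![0, h, (q : ℤ) + 1, (q : ℤ) + 1 - 3 * h]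
      (by
        intro j
        fin_cases j <;> simp) M
      (by
        rw [hM, Int.natAbs_ne_zero]
        refine mul_ne_zero (mul_ne_zero (mul_ne_zero (mul_ne_zero (mul_ne_zero (by norm_num) hh0) ?_) ?_) ?_) ?_
        all_goals omega)
      (by
        have b1 : (3 * h).natAbs ≤ 4 * N := by omega
        have b2 : ((q : ℤ) + 1).natAbs ≤ 4 * N := by omega
        have b3 : ((q' : ℤ) + 1).natAbs ≤ 4 * N := by omega
        have b4 : ((q : ℤ) + 1 - 3 * h).natAbs ≤ 4 * N := by omega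
        have b5 : ((q : ℤ) + 1 + h).natAbs ≤ 4 * N := by omega
        have b6 : M ≤ 4 * N * (4 * N) * (4 * N) * (4 * N) * (4 * N) := by
          rw [hM, Int.natAbs_mul, Int.natAbs_mul, Int.natAbs_mul, Int.natAbs_mul]
          gcongr
        have b7 : 4 * N * (4 * N) * (4 * N) * (4 * N) * (4 * N) = 4 ^ 5 * N ^ 5 := by ring
        have b8 : 4 ^ 5 * N ^ 5 ≤ N ^ 5 * N ^ 5 := Nat.mul_le_mul_right _ (Nat.pow_le_pow_left (by omega) 5)
        have b9 : N ^ 5 * N ^ 5 ≤ N ^ 20 := by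
          rw [← pow_add]
          exact Nat.pow_le_pow_right (by omega) (by norm_num)
        omega)
      (by
        have hdvd : ∀ z : ℤ, z ∣ 3 * h * ((q : ℤ) + 1) * ((q' : ℤ) + 1) * ((q : ℤ) + 1 - 3 * h) *
            ((q : ℤ) + 1 + h) → z ∣ (M : ℤ) := by
          intro z hz
          rw [hM]
          exact Int.dvd_natAbs.2 hz
        intro j l hjl
        apply hdvd
        have r01 : Res ![1, 1, -1, -1] ![0, h, (q : ℤ) + 1, (q : ℤ) + 1 - 3 * h] (0 : Fin 4) 1 = h := by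
          simp [Res]
        have r02 : Res ![1, 1, -1, -1] ![0, h, (q : ℤ) + 1, (q : ℤ) + 1 - 3 * h] (0 : Fin 4) 2 = (q : ℤ) + 1 := by
          simp [Res]
        have r03 : Res ![1, 1, -1, -1] ![0, h, (q : ℤ) + 1, (q : ℤ) + 1 - 3 * h] (0 : Fin 4) 3 =
            (q : ℤ) + 1 - 3 * h := by
          simp [Res]
        have r12 : Res ![1, 1, -1, -1] ![0, h, (q : ℤ) + 1, (q : ℤ) + 1 - 3 * h] (1 : Fin 4) 2 = (q : ℤ) + 1 + h := by
          simp [Res]
        have r13 : Res ![1, 1, -1, -1] ![0, h, (q : ℤ) + 1, (q : ℤ) + 1 - 3 * h] (1 : Fin 4) 3 = (q' : ℤ) + 1 := by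
          simp [Res]
          omega
        have r23 : Res ![1, 1, -1, -1] ![0, h, (q : ℤ) + 1, (q : ℤ) + 1 - 3 * h] (2 : Fin 4) 3 = 3 * h := by
          simp [Res]
          ring
        have anti : ∀ i i' : Fin 4, Res ![1, 1, -1, -1] ![0, h, (q : ℤ) + 1, (q : ℤ) + 1 - 3 * h] i i' =
            - Res ![1, 1, -1, -1] ![0, h, (q : ℤ) + 1, (q : ℤ) + 1 - 3 * h] i' i := by
          intro i i'
          unfold Res
          ring
        have d1 : h ∣ 3 * h * ((q : ℤ) + 1) * ((q' : ℤ) + 1) * ((q : ℤ) + 1 - 3 * h) * ((q : ℤ) + 1 + h) :=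
          ⟨3 * ((q : ℤ) + 1) * ((q' : ℤ) + 1) * ((q : ℤ) + 1 - 3 * h) * ((q : ℤ) + 1 + h), by ring⟩
        have d2 : (q : ℤ) + 1 ∣ 3 * h * ((q : ℤ) + 1) * ((q' : ℤ) + 1) * ((q : ℤ) + 1 - 3 * h) * ((q : ℤ) + 1 + h) :=
          ⟨3 * h * ((q' : ℤ) + 1) * ((q : ℤ) + 1 - 3 * h) * ((q : ℤ) + 1 + h), by ring⟩
        have d3 : (q : ℤ) + 1 - 3 * h ∣ 3 * h * ((q : ℤ) + 1) * ((q' : ℤ) + 1) * ((q : ℤ) + 1 - 3 * h) *
            ((q : ℤ) + 1 + h) := ⟨3 * h * ((q : ℤ) + 1) * ((q' : ℤ) + 1) * ((q : ℤ) + 1 + h), by ring⟩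
        have d4 : (q : ℤ) + 1 + h ∣ 3 * h * ((q : ℤ) + 1) * ((q' : ℤ) + 1) * ((q : ℤ) + 1 - 3 * h) *
            ((q : ℤ) + 1 + h) := ⟨3 * h * ((q : ℤ) + 1) * ((q' : ℤ) + 1) * ((q : ℤ) + 1 - 3 * h), by ring⟩
        have d5 : (q' : ℤ) + 1 ∣ 3 * h * ((q : ℤ) + 1) * ((q' : ℤ) + 1) * ((q : ℤ) + 1 - 3 * h) *
            ((q : ℤ) + 1 + h) := ⟨3 * h * ((q : ℤ) + 1) * ((q : ℤ) + 1 - 3 * h) * ((q : ℤ) + 1 + h), by ring⟩
        have d6 : 3 * h ∣ 3 * h * ((q : ℤ) + 1) * ((q' : ℤ) + 1) * ((q : ℤ) + 1 - 3 * h) *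
            ((q : ℤ) + 1 + h) := ⟨((q : ℤ) + 1) * ((q' : ℤ) + 1) * ((q : ℤ) + 1 - 3 * h) * ((q : ℤ) + 1 + h), by ring⟩
        fin_cases j <;> fin_cases l
        · exact absurd rfl hjl
        · exact r01.symm ▸ d1
        · exact r02.symm ▸ d2
        · exact r03.symm ▸ d3
        · rw [anti]; exact (Int.neg_dvd).2 (r01.symm ▸ d1)
        · exact absurd rfl hjl
        · exact r12.symm ▸ d4
        · exact r13.symm ▸ d5
        · rw [anti]; exact (Int.neg_dvd).2 (r02.symm ▸ d2)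
        · rw [anti]; exact (Int.neg_dvd).2 (r12.symm ▸ d4)
        · exact absurd rfl hjl
        · exact r23.symm ▸ d6
        · rw [anti]; exact (Int.neg_dvd).2 (r03.symm ▸ d3)
        · rw [anti]; exact (Int.neg_dvd).2 (r13.symm ▸ d5)
        · rw [anti]; exact (Int.neg_dvd).2 (r23.symm ▸ d6)
        · exact absurd rfl hjl)
    rw [← hD] at hx'
    refine le_trans ?_ hx'
    rw [Nat.cast_le]
    apply card_le_card_of_injOn (fun w => w.1.2)
    · intro w hw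
      obtain ⟨h1, h2, h3, h4, h5, h6, h7, h8⟩ := Wqq_mem (mem_coe.1 hw)
      have := h2.two_le
      rw [mem_coe, mem_filter, mem_Icc]
      refine ⟨⟨h2.one_lt.le, h5⟩, ?_⟩
      have i0 : ((1 : ℤ) * ((w.1.2 : ℕ) : ℤ) + 0).toNat = w.1.2 := by simp
      have j1 : (1 : ℤ) * ((w.1.2 : ℕ) : ℤ) + h = ((w.2.2 : ℕ) : ℤ) := by
        clear hM hx hf
        omega
      have j2 : (-1 : ℤ) * ((w.1.2 : ℕ) : ℤ) + ((q : ℤ) + 1) = ((w.1.1 : ℕ) : ℤ) := by
        clear hM hx hf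
        omega
      have j3 : (-1 : ℤ) * ((w.1.2 : ℕ) : ℤ) + ((q : ℤ) + 1 - 3 * h) = ((w.2.1 : ℕ) : ℤ) := by
        clear hM hx hf
        omega
      have i1 : ((1 : ℤ) * ((w.1.2 : ℕ) : ℤ) + h).toNat = w.2.2 := by rw [j1]; exact Int.toNat_natCast _
      have i2 : ((-1 : ℤ) * ((w.1.2 : ℕ) : ℤ) + ((q : ℤ) + 1)).toNat = w.1.1 := by rw [j2]; exact Int.toNat_natCast _
      have i3 : ((-1 : ℤ) * ((w.1.2 : ℕ) : ℤ) + ((q : ℤ) + 1 - 3 * h)).toNat = w.2.1 := by rw [j3]; exact Int.toNat_natCast _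
      intro j
      fin_cases j
      · exact i0.symm ▸ h2
      · exact i1.symm ▸ h4
      · exact i2.symm ▸ h1
      · exact i3.symm ▸ h3
    · intro w hw v hv h
      obtain ⟨h1, h2, h3, h4, h5, h6, h7, h8⟩ := Wqq_mem (mem_coe.1 hw)
      obtain ⟨g1, g2, g3, g4, g5, g6, g7, g8⟩ := Wqq_mem (mem_coe.1 hv)
      have e2 : w.1.2 = v.1.2 := h
      have e1 : w.1.1 = v.1.1 := by omega
      have e4 : w.2.2 = v.2.2 := by omega
      have e3 : w.2.1 = v.2.1 := by omega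
      exact Prod.ext (Prod.ext e1 e2) (Prod.ext e3 e4)
  -- sum up
  have hb0 : (0 : ℝ) ≤ B.card := Nat.cast_nonneg _
  have h1 : ∑ n ∈ Icc 1 (7 * x), ((fibn (EE B N) n).card : ℝ) ^ 2 ≤
      ∑ q ∈ B, ∑ q' ∈ B, ((Wqq (EE B N) q q').card : ℝ) := by
    have := (sum_sq_le (EE B N) (Icc 1 (7 * x))).trans (WW_le B N)
    exact_mod_cast this
  have h2 : ∑ q ∈ B, ∑ q' ∈ B, ((Wqq (EE B N) q q').card : ℝ) ≤ ∑ q ∈ B, ∑ q' ∈ B, (D + if q = q' then (N : ℝ) else 0) := by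
    refine sum_le_sum fun q hq => sum_le_sum fun q' hq' => ?_
    by_cases h : q = q'
    · rw [if_pos h]
      have : ((Wqq (EE B N) q q').card : ℝ) ≤ N := by exact_mod_cast Wqq_triv B N q q'
      linarith
    · rw [if_neg h, add_zero]
      exact hoff q hq q' hq' h
  have h3 : ∑ q ∈ B, ∑ q' ∈ B, (D + if q = q' then (N : ℝ) else 0) = (B.card : ℝ) ^ 2 * D + B.card * N := by
    simp only [sum_add_distrib, sum_const, nsmul_eq_mul]
    congr 1
    · ring
    · rw [← nsmul_eq_mul, ← sum_const]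
      refine sum_congr rfl fun q hq => ?_
      rw [sum_ite_eq, if_pos hq]
  refine (h1.trans h2).trans ?_
  rw [h3]
  have hNx : (N : ℝ) ≤ 3 * x := by rw [hNr]; linarith
  have h4 : D ≤ 48 * C * x * Real.log (Real.log x) ^ 4 / Real.log x ^ 4 := by
    rw [hD]
    have h5 : Real.log (Real.log N) ^ 4 ≤ 16 * Real.log (Real.log x) ^ 4 := by
      have := pow_le_pow_left₀ hllN0 hllN 4
      have e : (2 * Real.log (Real.log x)) ^ 4 = 16 * Real.log (Real.log x) ^ 4 := by ring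
      linarith
    have h6 : Real.log x ^ 4 ≤ Real.log N ^ 4 := pow_le_pow_left₀ hlx0.le hLN 4
    calc C * N * Real.log (Real.log N) ^ 4 / Real.log N ^ 4 ≤
        C * (3 * x) * (16 * Real.log (Real.log x) ^ 4) / Real.log x ^ 4 := by gcongr
      _ = _ := by ring
  have h5 : (B.card : ℝ) * N ≤ 3 * (B.card : ℝ) ^ 2 * x * Real.log (Real.log x) ^ 4 / Real.log x ^ 4 := by
    rw [le_div_iff₀ (by positivity)]
    have h6 : (1 : ℝ) ≤ Real.log (Real.log x) ^ 4 := one_le_pow₀ hll1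
    calc (B.card : ℝ) * N * Real.log x ^ 4 ≤ B.card * (3 * x) * B.card := by gcongr
      _ = 3 * (B.card : ℝ) ^ 2 * x * 1 := by ring
      _ ≤ 3 * (B.card : ℝ) ^ 2 * x * Real.log (Real.log x) ^ 4 := by gcongr
  calc (B.card : ℝ) ^ 2 * D + B.card * N ≤
      (B.card : ℝ) ^ 2 * (48 * C * x * Real.log (Real.log x) ^ 4 / Real.log x ^ 4) +
        3 * (B.card : ℝ) ^ 2 * x * Real.log (Real.log x) ^ 4 / Real.log x ^ 4 := by gcongr
    _ = _ := by ring

end Pool.Agent.H48.AS
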